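import Pool.Agent.Helper93.TS.Stmts
import Pool.Agent.Helper39.DiscK

/-!
# Two-scale sums-differences: from finite sets of lines to Hausdorff dimension
-/

set_option autoImplicit false

open MeasureTheory Set Filter Topology
open scoped ENNReal NNReal

namespace Pool.Agent.Helper93.TS

open Pool.Agent.Helper39 (exists_cover cont cont_le cont_ne_zero exists_large_pieceO)

/-- the final computation with logarithms -/
theorem d4_num {α c1 s d δ0 η' Q A C1 X W cL : ℝ} (hα : 0 < α) (hc1 : 0 ≤ c1)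
    (hδ : δ0 = s * (α + c1 / 2) - 2 * α * (d - 1)) (hη : (α + c1) * η' ≤ δ0 / 4) (hQ : 1 ≤ Q)
    (hA : 0 < A) (hC1 : 0 < C1) (hL : A * Q ^ (s - η') ≤ cL) (hX0 : 0 < X)
    (hX : X ≤ C1 * Q ^ (d - 1)) (hW0 : 0 < W) (hW : W ≤ 2 * Q ^ (s / 2))
    (hf : (α + c1) * Real.log cL ≤ 2 * α * Real.log X + c1 * Real.log W + δ0 / 4 * Real.log Q) :
    δ0 / 2 * Real.log Q ≤ 2 * α * Real.log C1 + c1 * Real.log 2 - (α + c1) * Real.log A := by
  have hQ0 : 0 < Q := by linarith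
  have hlQ : 0 ≤ Real.log Q := Real.log_nonneg hQ
  have e1 : Real.log A + (s - η') * Real.log Q ≤ Real.log cL := by
    have h := Real.log_le_log (by positivity) hL
    rwa [Real.log_mul hA.ne' (by positivity), Real.log_rpow hQ0] at h
  have e2 : Real.log X ≤ Real.log C1 + (d - 1) * Real.log Q := by
    have h := Real.log_le_log hX0 hX
    rwa [Real.log_mul hC1.ne' (by positivity), Real.log_rpow hQ0] at h
  have e3 : Real.log W ≤ Real.log 2 + (s / 2) * Real.log Q := by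
    have h := Real.log_le_log hW0 hW
    rwa [Real.log_mul (by norm_num) (by positivity), Real.log_rpow hQ0] at h
  have f1 := mul_le_mul_of_nonneg_left e1 (by linarith : 0 ≤ α + c1)
  have f2 := mul_le_mul_of_nonneg_left e2 (by linarith : 0 ≤ 2 * α)
  have f3 := mul_le_mul_of_nonneg_left e3 hc1
  have f4 := mul_le_mul_of_nonneg_right hη hlQ
  have f5 : δ0 * Real.log Q = s * (α + c1 / 2) * Real.log Q - 2 * α * (d - 1) * Real.log Q := by
    rw [hδ]
    ring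
  linarith

/-- two points in a cube of side `a` have distance at most `a` -/
theorem d4_cube {m : ℕ} {a : ℝ} (ha : 0 ≤ a) (c : Fin m → ℝ) :
    Metric.ediam (Icc c (c + fun _ => a)) ≤ ENNReal.ofReal a := by
  refine Metric.ediam_le (fun y hy z hz => ?_)
  rw [edist_dist]
  refine ENNReal.ofReal_le_ofReal ?_
  rw [dist_pi_le_iff ha]
  intro k
  have y1 := hy.1 k
  have y2 := hy.2 k
  have z1 := hz.1 k
  have z2 := hz.2 k
  simp only [Pi.add_apply] at y2 z2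
  rw [Real.dist_eq, abs_le]
  constructor <;> linarith

/-- the sum of the numbers of points is positive -/
theorem d4_pos {ι κ : Type*} [DecidableEq κ] (L : Finset ι) (T : ι → Finset ℕ) (g : ℕ → ι → κ)
    (M : ℕ) (l : ι) (hl : l ∈ L) (a : ℕ) (ha : a ∈ T l) (hT : T l ⊆ Finset.range M) :
    0 < ∑ i ∈ Finset.range M, (((L.filter (fun l => i ∈ T l)).image (g i)).card : ℝ) := by
  refine Finset.sum_pos' (fun _ _ => Nat.cast_nonneg _) ⟨a, hT ha, ?_⟩
  have h3 : 0 < ((L.filter (fun l => a ∈ T l)).image (g a)).card := by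
    rw [Finset.card_pos]
    exact ⟨g a l, Finset.mem_image_of_mem _ (Finset.mem_filter.2 ⟨hl, ha⟩)⟩
  exact_mod_cast h3

theorem st_D4 (hDC2 : ST_DC2) : ST_D4 := by
  intro m α c1 hα hc1 h K V hV hK s hs hsV
  have hden : 0 < α + c1 / 2 := by positivity
  set al : ℝ := 2 * α / (α + c1 / 2) with hal
  have halpos : 0 < al := by positivity
  by_contra hcon
  push Not at hcon
  obtain ⟨d, hd1, hd2⟩ := ENNReal.lt_iff_exists_nnreal_btwn.1 hcon
  have hd0 : 0 < d := by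
    have : (0:ℝ≥0∞) < d := lt_of_le_of_lt zero_le hd1
    exact_mod_cast this
  have hd3 : (d:ℝ) < s/al + 1 := by
    have h1 : ENNReal.ofReal (d:ℝ) < ENNReal.ofReal (s/al + 1) := by
      rwa [ENNReal.ofReal_coe_nnreal]
    exact (ENNReal.ofReal_lt_ofReal_iff (by positivity)).1 h1
  obtain ⟨δ0, hδ0⟩ : ∃ δ0 : ℝ, δ0 = s * (α + c1 / 2) - 2 * α * ((d:ℝ) - 1) := ⟨_, rfl⟩
  have hδpos : 0 < δ0 := by
    have h1 : ((d:ℝ) - 1) < s / al := by linarith
    rw [lt_div_iff₀ halpos, hal, ← mul_div_assoc, div_lt_iff₀ hden] at h1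
    rw [hδ0]
    linarith
  obtain ⟨η0, hη0, N0, hIH⟩ := h (δ0/4) (by positivity)
  -- the exponent of the heights
  set η : ℝ := min η0 1 with hηdef
  have hη : 0 < η := lt_min hη0 one_pos
  have hη1 : η ≤ 1 := min_le_right _ _
  have hηη0 : η ≤ η0 := min_le_left _ _
  set u : ℝ := 1 - η/4 with hu
  have hupos : 0 < u := by linarith
  have hu1 : u < 1 := by linarith
  choose! x hx using hK
  -- classes
  set W : ℤ × ℕ → Set (Fin m → ℝ) := fun kq => {v | v ∈ V ∧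
    ENNReal.ofReal (1/((kq.2:ℝ)+1)) ≤ cont ℝ u hupos ({θ : ℝ | (x v + θ • v, θ) ∈ K} ∩ Ico (kq.1:ℝ) ((kq.1:ℝ)+1))} with hW
  have hcover : V ⊆ ⋃ kq, W kq := by
    intro v hv
    have h1 : cont ℝ u hupos {θ : ℝ | (x v + θ • v, θ) ∈ K} ≠ 0 := by
      apply cont_ne_zero
      refine lt_of_lt_of_le ?_ (hx v hv)
      rw [← ENNReal.ofReal_one]
      exact (ENNReal.ofReal_lt_ofReal_iff one_pos).2 hu1
    have h2 : ∃ k : ℤ, cont ℝ u hupos ({θ : ℝ | (x v + θ • v, θ) ∈ K} ∩ Ico (k:ℝ) ((k:ℝ)+1)) ≠ 0 := by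
      by_contra hall
      push Not at hall
      apply h1
      have h3 : {θ : ℝ | (x v + θ • v, θ) ∈ K} ⊆
          ⋃ k : ℤ, ({θ : ℝ | (x v + θ • v, θ) ∈ K} ∩ Ico (k:ℝ) ((k:ℝ)+1)) := by
        intro θ hθ
        exact mem_iUnion.2 ⟨⌊θ⌋, hθ, Int.floor_le θ, Int.lt_floor_add_one θ⟩
      exact measure_mono_null h3 (measure_iUnion_null hall)
    obtain ⟨k, hk⟩ := h2
    obtain ⟨q, hq⟩ := ENNReal.exists_inv_nat_lt hk
    refine mem_iUnion.2 ⟨(k, q), hv, ?_⟩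
    refine le_trans ?_ hq.le
    rw [one_div, ENNReal.ofReal_inv_of_pos (by positivity), ENNReal.inv_le_inv,
      ← ENNReal.ofReal_natCast]
    exact ENNReal.ofReal_le_ofReal (by simp)
  obtain ⟨⟨kk, qq⟩, hkq⟩ : ∃ kq, ENNReal.ofReal s < dimH (W kq) := by
    have h1 : ENNReal.ofReal s < ⨆ kq, dimH (W kq) := by
      rw [← dimH_iUnion]
      exact hsV.trans_le (dimH_mono hcover)
    exact lt_iSup_iff.1 h1
  set WW : Set (Fin m → ℝ) := W (kk, qq) with hWW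
  set q1 : ℝ := 1/((qq:ℝ)+1) with hq1
  have hq1pos : 0 < q1 := by positivity
  have hWI : WW ⊆ Icc 0 1 := fun v hv => hV hv.1
  have hWne := cont_ne_zero hs hkq
  have hWfin : cont (Fin m → ℝ) s hs WW ≠ ∞ := by
    refine ne_top_of_le_ne_top ?_ (cont_le hs WW)
    refine ENNReal.rpow_ne_top_of_nonneg hs.le ?_
    have hb : Bornology.IsBounded (Icc (0 : Fin m → ℝ) 1) := Metric.isBounded_Icc 0 1
    exact (hb.subset hWI).ediam_ne_top
  set c0 : ℝ := (cont (Fin m → ℝ) s hs WW).toReal with hc0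
  have hc0pos : 0 < c0 := ENNReal.toReal_pos hWne hWfin
  have hc0e : cont (Fin m → ℝ) s hs WW = ENNReal.ofReal c0 := (ENNReal.ofReal_toReal hWfin).symm
  -- geometric weights
  have hac : 0 < α + c1 := by positivity
  obtain ⟨η', hη'⟩ : ∃ η' : ℝ, η' = min (η/4) (δ0/(4 * (α + c1))) := ⟨_, rfl⟩
  have hη'pos : 0 < η' := by rw [hη']; exact lt_min (by positivity) (by positivity)
  have hη'4 : η' ≤ η/4 := by rw [hη']; exact min_le_left _ _
  have hη'd : (α + c1) * η' ≤ δ0/4 := by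
    have h1 : η' ≤ δ0/(4 * (α + c1)) := by rw [hη']; exact min_le_right _ _
    rw [le_div_iff₀ (by positivity)] at h1
    linarith
  set r : ℝ := (2:ℝ)^(-η') with hr
  have hrpos : 0 < r := by positivity
  have hr1 : r < 1 := Real.rpow_lt_one_of_one_lt_of_neg (by norm_num) (by linarith)
  set cr : ℕ → ℝ := fun j => (1 - r)/2 * r^j with hcr
  have h1r : 0 < 1 - r := by linarith
  have hcrpos : ∀ j, 0 < cr j := fun j => by positivity
  have hcsum : ∑' j, ENNReal.ofReal (cr j) < 1 := by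
    have hs : Summable cr := (summable_geometric_of_lt_one hrpos.le hr1).mul_left _
    rw [← ENNReal.ofReal_tsum_of_nonneg (fun j => (hcrpos j).le) hs]
    have : ∑' j, cr j = 1/2 := by
      simp only [hcr]
      rw [tsum_mul_left, tsum_geometric_of_lt_one hrpos.le hr1]
      have : 1 - r ≠ 0 := by linarith
      field_simp
    rw [this, ← ENNReal.ofReal_one]
    exact (ENNReal.ofReal_lt_ofReal_iff one_pos).2 (by norm_num)
  have hrj : ∀ j : ℕ, r^j = ((2:ℝ)^j)^(-η') := by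
    intro j
    rw [hr, ← Real.rpow_natCast, ← Real.rpow_mul (by norm_num), mul_comm, Real.rpow_mul (by norm_num),
      Real.rpow_natCast]
  -- the constants
  obtain ⟨C1, hC1⟩ : ∃ C1 : ℝ, C1 = 2 * (4:ℝ)^(d:ℝ) * (5 * 5^m) := ⟨_, rfl⟩
  have hC1pos : 0 < C1 := by rw [hC1]; positivity
  obtain ⟨A, hA⟩ : ∃ A : ℝ, A = (1-r)/4 * c0 := ⟨_, rfl⟩
  have hApos : 0 < A := by rw [hA]; positivity
  obtain ⟨C2, hC2⟩ : ∃ C2 : ℝ, C2 = 2 * α * Real.log C1 + c1 * Real.log 2 -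
    (α + c1) * Real.log A := ⟨_, rfl⟩
  -- choose the scale
  have ht2 : Tendsto (fun i : ℕ => (2:ℝ)^i) atTop atTop :=
    tendsto_pow_atTop_atTop_of_one_lt (by norm_num)
  have htQ : Tendsto (fun i : ℕ => (2:ℝ)^i * (2:ℝ)^i) atTop atTop := ht2.atTop_mul_atTop₀ ht2
  have hev : ∀ᶠ i : ℕ in atTop, N0 ≤ 2^i ∧ 4/((1-r) * q1) ≤ ((2:ℝ)^i * (2:ℝ)^i)^(η/2) ∧
      C2 < δ0 / 2 * Real.log ((2:ℝ)^i * (2:ℝ)^i) := by
    refine Filter.Eventually.and ?_ (Filter.Eventually.and ?_ ?_)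
    · exact (tendsto_pow_atTop_atTop_of_one_lt (by norm_num : 1 < 2)).eventually_ge_atTop N0
    · exact ((tendsto_rpow_atTop (by positivity : 0 < η/2)).comp htQ).eventually_ge_atTop _
    · exact ((Real.tendsto_log_atTop.comp htQ).const_mul_atTop
        (by positivity : 0 < δ0/2)).eventually_gt_atTop _
  obtain ⟨i0, hi0⟩ := eventually_atTop.1 hev
  obtain ⟨t, J, hKt, hJ0, hJd, hJc⟩ := exists_cover hd0 hd1 (2 * i0)
  set S : ℕ → (Fin m → ℝ) → Set ℝ := fun j v => {θ | θ ∈ Ico (kk:ℝ) ((kk:ℝ)+1) ∧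
    ∃ n ∈ J j, (x v + θ • v, θ) ∈ t n} with hS
  set D : ℕ → Set (Fin m → ℝ) := fun j => {v | v ∈ WW ∧
    ENNReal.ofReal (cr j) * ENNReal.ofReal q1 ≤ cont ℝ u hupos (S j v)} with hD
  have hDcov : WW ⊆ ⋃ j, D j := by
    intro v hv
    have hsub : ({θ : ℝ | (x v + θ • v, θ) ∈ K} ∩ Ico (kk:ℝ) ((kk:ℝ)+1)) ⊆ ⋃ j, S j v := by
      rintro θ ⟨hθK, hθI⟩
      obtain ⟨j, hj⟩ := mem_iUnion.1 (hKt hθK)
      obtain ⟨n, hn1, hn2⟩ := mem_iUnion₂.1 hj
      exact mem_iUnion.2 ⟨j, hθI, n, hn1, hn2⟩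
    obtain ⟨j, hj⟩ := exists_large_pieceO (cont ℝ u hupos) hsub hv.2
      (ENNReal.ofReal_pos.2 hq1pos).ne' ENNReal.ofReal_ne_top hcsum
    exact mem_iUnion.2 ⟨j, hv, hj⟩
  obtain ⟨j, hj⟩ := exists_large_pieceO (cont (Fin m → ℝ) s hs) hDcov le_rfl hWne hWfin hcsum
  have hjk : 2 * i0 ≤ j := by
    by_contra hlt
    push Not at hlt
    have hSe : ∀ v, S j v = ∅ := by
      intro v
      simp only [hS, hJ0 j hlt]
      simp
    have hDe : D j = ∅ := by
      rw [Set.eq_empty_iff_forall_notMem]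
      rintro v ⟨_, hv⟩
      rw [hSe v, measure_empty] at hv
      have : 0 < ENNReal.ofReal (cr j) * ENNReal.ofReal q1 :=
        ENNReal.mul_pos (ENNReal.ofReal_pos.2 (hcrpos j)).ne' (ENNReal.ofReal_pos.2 hq1pos).ne'
      exact absurd hv (not_le.2 this)
    rw [hDe, measure_empty] at hj
    have : 0 < ENNReal.ofReal (cr j) * cont (Fin m → ℝ) s hs WW :=
      ENNReal.mul_pos (ENNReal.ofReal_pos.2 (hcrpos j)).ne' hWne
    exact absurd hj (not_le.2 this)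
  -- the scales `N = 2 ^ i` and `Q = N * N`
  obtain ⟨i, hi⟩ : ∃ i, i = j / 2 := ⟨_, rfl⟩
  have hii0 : i0 ≤ i := by omega
  have hij : 2 * i ≤ j ∧ j ≤ 2 * i + 1 := by omega
  obtain ⟨hj1, hj2, hj3⟩ := hi0 i hii0
  obtain ⟨N, hN⟩ : ∃ N : ℕ, N = 2^i := ⟨_, rfl⟩
  rw [← hN] at hj1
  have hN1 : 1 ≤ N := by rw [hN]; exact Nat.one_le_two_pow
  have hNr : (N:ℝ) = (2:ℝ)^i := by rw [hN]; push_cast; rfl
  have hNpos : (0:ℝ) < N := by exact_mod_cast hN1
  have hN1r : (1:ℝ) ≤ N := by exact_mod_cast hN1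
  obtain ⟨Q, hQ⟩ : ∃ Q : ℝ, Q = ((N * N : ℕ) : ℝ) := ⟨_, rfl⟩
  have hQN : Q = (N:ℝ) * N := by rw [hQ]; push_cast; rfl
  have hQ2 : Q = (2:ℝ)^i * (2:ℝ)^i := by rw [hQN, hNr]
  have hQr : 0 < Q := by rw [hQN]; positivity
  have hQ1 : 1 ≤ Q := by rw [hQN]; nlinarith
  rw [← hQ2] at hj2 hj3
  have hQj1 : Q ≤ (2:ℝ)^j := by
    rw [hQ2, ← pow_add]
    exact pow_le_pow_right₀ (by norm_num) (by omega)
  have hQj2 : (2:ℝ)^j ≤ 2 * Q := by
    rw [hQ2, ← pow_add, ← pow_succ']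
    exact pow_le_pow_right₀ (by norm_num) (by omega)
  -- the smaller weight
  obtain ⟨ρ, hρ⟩ : ∃ ρ : ℝ, ρ = (1-r)/4 * Q^(-η') := ⟨_, rfl⟩
  have hρpos : 0 < ρ := by rw [hρ]; positivity
  have hρc : ρ ≤ cr j := by
    rw [hρ]
    simp only [hcr]
    rw [hrj j]
    have e1 : (2 * Q)^(-η') ≤ ((2:ℝ)^j)^(-η') :=
      Real.rpow_le_rpow_of_nonpos (by positivity) hQj2 (by linarith)
    have e2 : (1/2:ℝ) ≤ (2:ℝ)^(-η') := by
      have e3 : (2:ℝ)^(-1:ℝ) ≤ (2:ℝ)^(-η') :=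
        Real.rpow_le_rpow_of_exponent_le (by norm_num) (by linarith)
      rwa [Real.rpow_neg_one, ← one_div] at e3
    have e4 : (1/2) * Q^(-η') ≤ (2 * Q)^(-η') := by
      rw [Real.mul_rpow (by norm_num) hQr.le]
      exact mul_le_mul_of_nonneg_right e2 (by positivity)
    calc (1-r)/4 * Q^(-η') = (1-r)/2 * ((1/2) * Q^(-η')) := by ring
      _ ≤ (1-r)/2 * ((2:ℝ)^j)^(-η') := mul_le_mul_of_nonneg_left (e4.trans e1) (by positivity)
  obtain ⟨L, T, hL1, hL2, hL3, hL4, hL5, hL7, hL6⟩ := hDC2 m N hN1 (kk:ℝ)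
    (J j) t
    (by
      intro n hn p hp q hq
      have h1 := hJd j n hn _ hp _ hq
      rw [edist_dist, ENNReal.ofReal_le_ofReal_iff (by positivity)] at h1
      rw [← hQ]
      calc dist p q ≤ (1/2)^j := h1
        _ = 1 / (2:ℝ)^j := by rw [div_pow, one_pow]
        _ ≤ 1 / Q := one_div_le_one_div_of_le hQr hQj1)
    (D j) (fun v hv => hWI hv.1) x (S j) (fun v _ θ hθ => hθ.1)
    (by
      rintro v _ θ ⟨_, n, hn1, hn2⟩
      exact ⟨n, hn1, hn2⟩)
    (cont ℝ u hupos) (cont (Fin m → ℝ) s hs) ((1/Q)^u) ((1/Q)^s) ((N:ℝ)^s) (by positivity)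
    (by positivity) (by positivity)
    (by
      intro a
      refine (cont_le hupos _).trans ?_
      rw [← ENNReal.ofReal_rpow_of_nonneg (by positivity) hupos.le]
      refine ENNReal.rpow_le_rpow ?_ hupos.le
      rw [Real.ediam_Ico, ← hQ]
      simp)
    (by
      intro c
      refine (cont_le hs _).trans ?_
      rw [← ENNReal.ofReal_rpow_of_nonneg (by positivity) hs.le]
      refine ENNReal.rpow_le_rpow ?_ hs.le
      rw [← hQ]
      exact d4_cube (by positivity) c)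
    (by
      intro c
      refine (cont_le hs _).trans ?_
      have e1 : (N:ℝ)^s * (1/Q)^s = (1/(N:ℝ))^s := by
        rw [← Real.mul_rpow (by positivity) (by positivity), hQN]
        congr 1
        field_simp
      rw [e1, ← ENNReal.ofReal_rpow_of_nonneg (by positivity) hs.le]
      refine ENNReal.rpow_le_rpow ?_ hs.le
      exact d4_cube (by positivity) c)
    (ρ * q1) (ρ * c0)
    (by
      intro v hv
      refine le_trans ?_ hv.2
      rw [ENNReal.ofReal_mul hρpos.le]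
      exact mul_le_mul_left (ENNReal.ofReal_le_ofReal hρc) _)
    (by
      refine le_trans ?_ hj
      rw [ENNReal.ofReal_mul hρpos.le, ← hc0e]
      exact mul_le_mul_left (ENNReal.ofReal_le_ofReal hρc) _)
  have hcond : ∀ l ∈ L, (((N * N : ℕ) : ℝ))^(1-η0) ≤ (T l).card := by
    intro l hl
    refine le_trans ?_ (hL4 l hl)
    rw [← hQ]
    have e1 : ρ * q1 / (1/Q)^u = (1-r)/4 * q1 * (Q^(-η') * Q^u) := by
      rw [hρ, one_div Q, Real.inv_rpow hQr.le, div_inv_eq_mul]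
      ring
    rw [e1, ← Real.rpow_add hQr]
    have e3 : Q^(1-η0) * Q^(η/2) ≤ Q^(-η' + u) := by
      rw [← Real.rpow_add hQr]
      apply Real.rpow_le_rpow_of_exponent_le hQ1
      rw [hu]
      linarith
    have e4 : Q^(1-η0) * (4/((1-r) * q1)) ≤ Q^(-η' + u) :=
      (mul_le_mul_of_nonneg_left hj2 (by positivity)).trans e3
    calc Q^(1-η0) = (1-r)/4 * q1 * (Q^(1-η0) * (4/((1-r) * q1))) := by field_simp
      _ ≤ (1-r)/4 * q1 * Q^(-η' + u) := by gcongr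
  have hlow : A * Q^(s - η') ≤ L.card := by
    refine le_trans (le_of_eq ?_) hL5
    have e4 : Q^(s - η') = Q^s * Q^(-η') := by
      rw [sub_eq_add_neg, Real.rpow_add hQr]
    rw [hA, hρ, e4, one_div Q, Real.inv_rpow hQr.le, div_inv_eq_mul]
    ring
  have hLne : L.Nonempty := by
    rw [← Finset.card_pos]
    have h1 : (0:ℝ) < L.card := lt_of_lt_of_le (by positivity) hlow
    exact_mod_cast h1
  have hfinal := hIH N hj1 L T hLne hL1 hL2 hL3 hcond _ hL7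
  rw [← hQ] at hfinal hL6
  set SS : ℝ := ∑ i ∈ Finset.range (N * N), (((L.filter (fun l => i ∈ T l)).image
          (fun l => fun k => ⌊l.1 k + (i:ℝ)/Q * l.2 k⌋)).card : ℝ) with hSS
  have hSSpos : 0 < SS := by
    obtain ⟨l, hl⟩ := hLne
    have h1 : (0:ℝ) < (T l).card := lt_of_lt_of_le (by rw [← hQ]; positivity) (hcond l hl)
    have h2 : (T l).Nonempty := by
      rw [← Finset.card_pos]
      exact_mod_cast h1
    obtain ⟨a, ha⟩ := h2
    rw [hSS]
    exact d4_pos L T (fun i l k => ⌊l.1 k + (i:ℝ)/Q * l.2 k⌋) (N * N) l hl a ha (hL3 l hl)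
  have hJcard : ((J j).card : ℝ) ≤ 2 * (4:ℝ)^(d:ℝ) * Q^(d:ℝ) := by
    refine (hJc j).trans ?_
    have e1 : (2:ℝ)^(((j:ℝ)+1) * d) = ((2:ℝ)^(j+1))^(d:ℝ) := by
      rw [Real.rpow_mul (by norm_num)]
      congr 1
      rw [← Real.rpow_natCast]
      push_cast
      rfl
    have e2 : (2:ℝ)^(j+1) ≤ 4 * Q := by
      rw [pow_succ]
      linarith
    rw [e1, mul_assoc, ← Real.mul_rpow (by norm_num) hQr.le]
    exact mul_le_mul_of_nonneg_left (Real.rpow_le_rpow (by positivity) e2 d.2) (by norm_num)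
  have hSS2 : 1/Q * SS ≤ C1 * Q^((d:ℝ)-1) := by
    have e1 : SS ≤ C1 * Q^(d:ℝ) := by
      calc SS ≤ (J j).card * (5 * 5^m) := hL6
        _ ≤ (2 * (4:ℝ)^(d:ℝ) * Q^(d:ℝ)) * (5 * 5^m) := by gcongr
        _ = C1 * Q^(d:ℝ) := by rw [hC1]; ring
    rw [Real.rpow_sub hQr, Real.rpow_one]
    calc 1/Q * SS ≤ 1/Q * (C1 * Q^(d:ℝ)) := by gcongr
      _ = _ := by ring
  have hW2 : (N:ℝ)^s + 1 ≤ 2 * Q^(s/2) := by
    have e1 : Q^(s/2) = (N:ℝ)^s := by
      rw [hQN, ← pow_two, ← Real.rpow_natCast, ← Real.rpow_mul hNpos.le]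
      congr 1
      push_cast
      ring
    have e2 : 1 ≤ (N:ℝ)^s := Real.one_le_rpow hN1r hs.le
    rw [e1]
    linarith
  have hX0 : 0 < 1/Q * SS := mul_pos (one_div_pos.2 hQr) hSSpos
  have hW0 : 0 < (N:ℝ)^s + 1 := by
    have h1 : 0 < (N:ℝ)^s := Real.rpow_pos_of_pos hNpos s
    linarith
  have hlast := d4_num hα hc1 hδ0 hη'd hQ1 hApos hC1pos hlow hX0 hSS2 hW0 hW2 hfinal
  rw [← hC2] at hlast
  linarith

end Pool.Agent.Helper93.TS
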